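import Mathlib
import Pool.Agent.H.MP_ce8257_co.Main

set_option autoImplicit false

namespace Pool.Agent.Results.MP_ce8257_co.StarLike

open Finset

theorem result (V : Type) [Fintype V] [DecidableEq V] (G : SimpleGraph V) [DecidableRel G.Adj]
    (hiso : ∀ v : V, ∃ w : V, G.Adj v w)
    (hreal : ∀ z : ℂ,
      ∑ k ∈ Finset.range (Fintype.card V + 1),
        (((Finset.univ : Finset (Finset V)).filter
          (fun S => S.card = k ∧ ∀ v : V, v ∈ S ∨ ∃ u ∈ S, G.Adj v u)).card : ℂ) * z ^ k = 0 →
      z.im = 0) :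
    ∀ v : V, G.degree v = 1 ∨
      ((G.neighborFinset v).filter (fun x => G.degree x = 1)).card = 1 ∨
      ((G.neighborFinset v).filter (fun x => G.degree x = 1)).card = 2 := by
  classical
  have hreal' : ∀ z : ℂ, ∑ S ∈ univ.filter (Pool.Agent.H.MP_ce8257_co.dom G), z ^ S.card = 0 →
      z.im = 0 := by
    intro z hz
    apply hreal
    rw [← hz, ← Finset.sum_fiberwise_of_maps_to (s := univ.filter _) (g := Finset.card)
      (t := Finset.range (Fintype.card V + 1))]
    · apply Finset.sum_congr rfl
      intro k _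
      rw [Finset.sum_congr rfl (g := fun _ => z ^ k), Finset.sum_const, nsmul_eq_mul,
        Finset.filter_filter]
      · congr 3
        ext S
        simp [Pool.Agent.H.MP_ce8257_co.dom, and_comm]
      · intro S hS
        rw [(Finset.mem_filter.1 hS).2]
    · intro S _
      exact Finset.mem_range.2 (Nat.lt_succ_of_le (Finset.card_le_univ S))
  have h1 := Pool.Agent.H.MP_ce8257_co.leaf_or_stem G hiso hreal'
  intro v
  have h2 : (univ.filter (fun x => G.Adj v x ∧ Pool.Agent.H.MP_ce8257_co.leaf G x)).card < 3 := by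
    convert Pool.Agent.H.MP_ce8257_co.few_leaves G h1 hreal' v
  have e : (G.neighborFinset v).filter (fun x => G.degree x = 1) =
      univ.filter (fun x => G.Adj v x ∧ Pool.Agent.H.MP_ce8257_co.leaf G x) := by
    ext x
    simp [Pool.Agent.H.MP_ce8257_co.leaf, SimpleGraph.degree_eq_one_iff_existsUnique_adj]
  rcases h1 v with l | ⟨x, hx⟩
  · exact Or.inl (SimpleGraph.degree_eq_one_iff_existsUnique_adj.2 l)
  · right
    have : 0 < (univ.filter (fun x => G.Adj v x ∧ Pool.Agent.H.MP_ce8257_co.leaf G x)).card :=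
      Finset.card_pos.2 ⟨x, by simpa using hx⟩
    rw [e]
    omega

end Pool.Agent.Results.MP_ce8257_co.StarLike
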